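import Pool.Agent.Lib_helper40.SK.P.FIN

/-!
# The Renner-Wolf candidate is not bound secret: `S(X:Y‖Z) > 0` for every `a > 0`

The secret-key rate (`Pool.Agent.SK.secretKeyRate`: interactive public discussion, local
randomness, strong secrecy in total variation) of the four-valued distribution of the problem is
strictly positive for every `a > 0`.

Proof: two copies violate the four-function (Bhattacharyya) inequality
`∑_z √(B_z(f₀,g₀) B_z(f₁,g₁)) ≤ √(B(f₀,g₁) B(f₁,g₀))`; repetition with two halves makes the
agreement that is hidden from Eve exponentially larger than the disagreement; XORs, random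
linear syndromes and the leftover hash lemma then give a positive rate.
-/

namespace Pool.Agent.Results.MP_c084cb_lc.KeyRatePositive

open Pool.Agent.SK

theorem result (a : ℝ) (ha : 0 < a) : 0 < secretKeyRate (PE a) zE :=
  rate_pos a ha

end Pool.Agent.Results.MP_c084cb_lc.KeyRatePositive
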