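import Mathlib

/-!
# Binarization independence: single copies and coordinatewise binarizations

The candidate bound-secret distribution of Renner and Wolf with parameter `a`. We prove that for
every `a ≥ 9/8` and `N = 1` every pair of binarizations becomes conditionally independent after a
suitable channel of Eve, and the same for all `N` for every pair of binarizations which is, in each
coordinate, either one-dimensional on both sides or flat on one side.
-/

open scoped BigOperators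

namespace Pool.Agent.Results.MP_c084cb_lc.SingleCopy

/-- Eve's symbols: `Sum.inl 0`, `Sum.inl 1` or the pair `(x, y)` itself. -/
abbrev Sym : Type := ℕ ⊕ (Fin 4 × Fin 4)

/-- The unnormalised weights `w(x, y)`. -/
noncomputable def w (a : ℝ) (x y : Fin 4) : ℝ :=
  if x.val < 2 ∧ y.val < 2 then 1 / 8
  else if 2 ≤ x.val ∧ 2 ≤ y.val then (if x = y then 1 / 4 else 0)
  else a

/-- `P(X = x, Y = y) = w(x, y) / (1 + 8 a)`. -/
noncomputable def prob (a : ℝ) (x y : Fin 4) : ℝ := w a x y / (1 + 8 * a)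

/-- Eve's variable `Z` as a function of `(X, Y)`. -/
def zsym (x y : Fin 4) : Sym :=
  if x.val < 2 ∧ y.val < 2 then Sum.inl ((x.val + y.val) % 2)
  else if 2 ≤ x.val ∧ 2 ≤ y.val then Sum.inl (x.val % 2)
  else Sum.inr (x, y)

/-- The probability `P(X^N = x, Y^N = y)` of `N` independent copies. -/
noncomputable def probN (a : ℝ) {N : ℕ} (x y : Fin N → Fin 4) : ℝ := ∏ i, prob a (x i) (y i)

/-- The value of `Z^N`. -/
def zsymN {N : ℕ} (x y : Fin N → Fin 4) : Fin N → Sym := fun i => zsym (x i) (y i)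

/-- A binarization, given by the probability `p x` that the output bit is `1` on input `x`. -/
def IsBinarization {N : ℕ} (p : (Fin N → Fin 4) → ℝ) : Prop := ∀ x, 0 ≤ p x ∧ p x ≤ 1

/-- The probability that the output bit of the binarization `p` is `s` on input `x`. -/
def bitProb {N : ℕ} (p : (Fin N → Fin 4) → ℝ) (s : Bool) (x : Fin N → Fin 4) : ℝ :=
  if s then p x else 1 - p x

/-- A stochastic map from the values of `Z^N` into the finite set `ι`. -/
def IsChannel {N : ℕ} {ι : Type} [Fintype ι] (W : (Fin N → Sym) → ι → ℝ) : Prop :=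
  (∀ z o, 0 ≤ W z o) ∧ ∀ z, ∑ o, W z o = 1

/-- The joint probability that the two output bits are `s` and `t` and the channel outputs `o`. -/
noncomputable def joint (a : ℝ) {N : ℕ} {ι : Type} (p q : (Fin N → Fin 4) → ℝ)
    (W : (Fin N → Sym) → ι → ℝ) (s t : Bool) (o : ι) : ℝ :=
  ∑ x : Fin N → Fin 4, ∑ y : Fin N → Fin 4,
    probN a x y * bitProb p s x * bitProb q t y * W (zsymN x y) o

/-- The probability that the channel outputs `o`. -/
noncomputable def outProb (a : ℝ) {N : ℕ} {ι : Type} (p q : (Fin N → Fin 4) → ℝ)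
    (W : (Fin N → Sym) → ι → ℝ) (o : ι) : ℝ :=
  ∑ s : Bool, ∑ t : Bool, joint a p q W s t o

/-- The two output bits are independent conditional on every output `o` of the channel of positive
probability. -/
def CondIndep (a : ℝ) {N : ℕ} {ι : Type} (p q : (Fin N → Fin 4) → ℝ)
    (W : (Fin N → Sym) → ι → ℝ) : Prop :=
  ∀ o, 0 < outProb a p q W o → ∀ s t : Bool,
    joint a p q W s t o / outProb a p q W o =
      ((∑ t' : Bool, joint a p q W s t' o) / outProb a p q W o) *
        ((∑ s' : Bool, joint a p q W s' t o) / outProb a p q W o)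

/-- `p` is one-dimensional in coordinate `i`: for all other letters fixed, it is an affine function
of one and the same real function `φ` of the letter `i`. -/
def OneDim {N : ℕ} (p : (Fin N → Fin 4) → ℝ) (i : Fin N) : Prop :=
  ∃ φ : Fin 4 → ℝ, ∀ x : Fin N → Fin 4, ∃ A B : ℝ, ∀ c : Fin 4,
    p (Function.update x i c) = A + B * φ c

/-- `p` is flat in coordinate `i`: either it does not distinguish the letters `0` and `1` there, or
its difference between the letters `2` and `3` is a fixed multiple, of factor at most `1` in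
absolute value, of its difference between `0` and `1` (factor `0`: it does not distinguish the
letters `2` and `3`). -/
def Flat {N : ℕ} (p : (Fin N → Fin 4) → ℝ) (i : Fin N) : Prop :=
  (∀ x : Fin N → Fin 4, p (Function.update x i 0) = p (Function.update x i 1)) ∨
  ∃ ε : ℝ, |ε| ≤ 1 ∧ ∀ x : Fin N → Fin 4,
    p (Function.update x i 2) - p (Function.update x i 3) =
      ε * (p (Function.update x i 0) - p (Function.update x i 1))

/-! ### Zero covariance of weights -/

/-- Unnormalised zero-covariance of `u(x)` and `v(y)` under the weights `m`. -/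
def ZeroCov (m : Fin 4 → Fin 4 → ℝ) (u v : Fin 4 → ℝ) : Prop :=
  (∑ x, ∑ y, m x y) * (∑ x, ∑ y, m x y * (u x * v y)) =
    (∑ x, ∑ y, m x y * u x) * (∑ x, ∑ y, m x y * v y)

theorem ZeroCov.affine {m : Fin 4 → Fin 4 → ℝ} {φ ψ u v : Fin 4 → ℝ} (h : ZeroCov m φ ψ)
    {A B A' B' : ℝ} (hu : ∀ c, u c = A + B * φ c) (hv : ∀ c, v c = A' + B' * ψ c) :
    ZeroCov m u v := by
  unfold ZeroCov at *
  simp only [hu, hv]
  simp only [Fin.sum_univ_four] at *
  linear_combination (B * B') * h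

theorem sum_comb (g : Fin 4 → Fin 4 → ℝ) (u : Fin 4 → Fin 4 → ℝ) (α : Fin 4 → ℝ) :
    (∑ x, ∑ y, g x y * (∑ k, α k * u k x)) = ∑ k, α k * (∑ x, ∑ y, g x y * u k x) := by
  have e : ∀ x, (∑ y, g x y * (∑ k, α k * u k x)) = ∑ k, α k * ∑ y, g x y * u k x := by
    intro x
    rw [← Finset.sum_mul]
    rw [Finset.mul_sum]
    refine Finset.sum_congr rfl (fun k _ => ?_)
    rw [← Finset.sum_mul]
    ring
  simp_rw [e]
  rw [Finset.sum_comm]
  refine Finset.sum_congr rfl (fun k _ => ?_)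
  rw [Finset.mul_sum]

theorem ZeroCov.comb_left {m : Fin 4 → Fin 4 → ℝ} {u : Fin 4 → Fin 4 → ℝ} {v : Fin 4 → ℝ}
    (h : ∀ k, ZeroCov m (u k) v) (α : Fin 4 → ℝ) :
    ZeroCov m (fun c => ∑ k, α k * u k c) v := by
  unfold ZeroCov at *
  have e1 : (∑ x, ∑ y, m x y * ((∑ k, α k * u k x) * v y)) =
      ∑ k, α k * (∑ x, ∑ y, m x y * (u k x * v y)) := by
    have := sum_comb (fun x y => m x y * v y) u α
    have e : ∀ x y, m x y * ((∑ k, α k * u k x) * v y) = m x y * v y * (∑ k, α k * u k x) := by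
      intro x y; ring
    have e' : ∀ k x y, m x y * (u k x * v y) = m x y * v y * u k x := by
      intro k x y; ring
    simp_rw [e, e']
    exact this
  rw [e1, sum_comb, Finset.mul_sum, Finset.sum_mul]
  refine Finset.sum_congr rfl (fun k _ => ?_)
  linear_combination (α k) * h k

theorem ZeroCov.swap {m : Fin 4 → Fin 4 → ℝ} {u v : Fin 4 → ℝ} (h : ZeroCov m u v) :
    ZeroCov (fun x y => m y x) v u := by
  unfold ZeroCov at *
  rw [Finset.sum_comm] at h
  rw [Finset.sum_comm (f := fun x y => m x y * (u x * v y))] at h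
  rw [Finset.sum_comm (f := fun x y => m x y * u x)] at h
  rw [Finset.sum_comm (f := fun x y => m x y * v y)] at h
  have e : ∀ x y, m y x * (v x * u y) = m y x * (u y * v x) := by intro x y; ring
  simp_rw [e]
  rw [h]; ring

theorem ZeroCov.comb_right {m : Fin 4 → Fin 4 → ℝ} {u : Fin 4 → ℝ} {v : Fin 4 → Fin 4 → ℝ}
    (h : ∀ k, ZeroCov m u (v k)) (α : Fin 4 → ℝ) :
    ZeroCov m u (fun c => ∑ k, α k * v k c) :=
  (ZeroCov.comb_left (fun k => (h k).swap) α).swap

theorem ZeroCov.smul {m : Fin 4 → Fin 4 → ℝ} {u v : Fin 4 → ℝ} (h : ZeroCov m u v) (c : ℝ) :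
    ZeroCov (fun x y => c * m x y) u v := by
  unfold ZeroCov at *
  simp_rw [mul_assoc, ← Finset.mul_sum]
  linear_combination (c * c) * h

/-! ### The pools of one letter -/

/-- Table of a pool: core flags `c d`, cross weights `r`. -/
def pool (c d : ℝ) (r : Fin 4 → Fin 4 → ℝ) : Fin 4 → Fin 4 → ℝ :=
  ![![c, d, r 0 2, r 0 3], ![d, c, r 1 2, r 1 3], ![r 2 0, r 2 1, 2 * c, 0],
    ![r 3 0, r 3 1, 0, 2 * d]]

theorem pool_merged (ε : ℝ) (u v : Fin 4 → ℝ)
    (h : u 2 - u 3 = - ε * (u 0 - u 1)) :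
    ZeroCov (pool 1 1 ![![0,0,1+ε,1-ε],![0,0,1-ε,1+ε],![1,1,0,0],![1,1,0,0]]) u v := by
  unfold ZeroCov pool
  simp [Fin.sum_univ_four]
  linear_combination (16 * (v 2 - v 3)) * h

theorem pool_merged' (ε : ℝ) (u v : Fin 4 → ℝ)
    (h : v 2 - v 3 = - ε * (v 0 - v 1)) :
    ZeroCov (pool 1 1 ![![0,0,1,1],![0,0,1,1],![1+ε,1-ε,0,0],![1-ε,1+ε,0,0]]) u v := by
  unfold ZeroCov pool
  simp [Fin.sum_univ_four]
  linear_combination (16 * (u 2 - u 3)) * h

theorem pool0 (u v : Fin 4 → ℝ) (h : (u 0 - u 1) * (v 0 - v 1) = 0) :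
    ZeroCov (pool 1 0 ![![0,0,1,0],![0,0,1,0],![1,1,0,0],![0,0,0,0]]) u v := by
  unfold ZeroCov pool
  simp [Fin.sum_univ_four]
  linear_combination 4 * h

theorem pool1 (u v : Fin 4 → ℝ) (h : (u 0 - u 1) * (v 0 - v 1) = 0) :
    ZeroCov (pool 0 1 ![![0,0,0,1],![0,0,0,1],![0,0,0,0],![1,1,0,0]]) u v := by
  unfold ZeroCov pool
  simp [Fin.sum_univ_four]
  linear_combination (-4) * h

/-- Cross weights: nonnegative, at most `k` on label `2`, at most `l` on label `3`. -/
def Bd (k l : ℝ) (r : Fin 4 → Fin 4 → ℝ) : Prop :=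
  (∀ x y, 0 ≤ r x y) ∧ r 0 2 ≤ k ∧ r 1 2 ≤ k ∧ r 2 0 ≤ k ∧ r 2 1 ≤ k ∧
    r 0 3 ≤ l ∧ r 1 3 ≤ l ∧ r 3 0 ≤ l ∧ r 3 1 ≤ l

theorem core_norm_big (s s' t t' : ℝ) (h : 1/2 ≤ |s * t|) :
    ∃ r, Bd 5 4 r ∧ ZeroCov (pool 1 0 r) ![1/2, -1/2, s, s'] ![1/2, -1/2, t, t'] := by
  have hne : s * t ≠ 0 := by
    intro h0; rw [h0] at h; norm_num at h
  have hs : s ≠ 0 := left_ne_zero_of_mul hne
  have ht : t ≠ 0 := right_ne_zero_of_mul hne
  set k : ℝ := 1 + 1 / (2 * (s * t)) with hk
  have hk1 : |1 / (2 * (s * t))| ≤ 1 := by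
    rw [abs_div, abs_one, abs_mul, abs_two, div_le_one (by positivity)]
    linarith
  have hk0 : 0 ≤ k := by have := (abs_le.mp hk1).1; linarith
  have hk2 : k ≤ 2 := by have := (abs_le.mp hk1).2; linarith
  refine ⟨![![0,0,k,0],![0,0,k,0],![k,k,0,0],![0,0,0,0]], ?_, ?_⟩
  · refine ⟨?_, ?_, ?_, ?_, ?_, ?_, ?_, ?_, ?_⟩
    · intro x y; fin_cases x <;> fin_cases y <;> simp [hk0]
    all_goals simp
    all_goals linarith
  · have hkk : k * (2 * (s * t)) = 2 * (s * t) + 1 := by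
      rw [hk]; field_simp
    unfold ZeroCov pool
    simp [Fin.sum_univ_four]
    linear_combination (-2) * (1 + k) * hkk

theorem core_norm_small (s s' t t' : ℝ) (h : |s * t| < 1/2) (hs : |s| < 1) (ht : 1 ≤ |t - t'|) :
    ∃ r, Bd 5 4 r ∧ ZeroCov (pool 1 0 r) ![1/2, -1/2, s, s'] ![1/2, -1/2, t, t'] := by
  set e : ℝ := |t - t'| with he
  have hst' : |s * t'| ≤ 1/2 + e := by
    have h1 : s * t' = s * t - s * (t - t') := by ring
    rw [h1]
    calc |s * t - s * (t - t')| ≤ |s * t| + |s * (t - t')| := abs_sub _ _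
      _ = |s * t| + |s| * e := by rw [abs_mul s (t - t')]
      _ ≤ 1/2 + 1 * e := by
          have : |s| * e ≤ 1 * e := mul_le_mul_of_nonneg_right hs.le (by linarith)
          linarith
      _ = 1/2 + e := by ring
  have hst1 := (abs_le.mp hst').1
  obtain ⟨w, hw, hFw⟩ : ∃ w ∈ Set.Icc (0:ℝ) 4,
      4 + w * (1 - 4 * e - 4 * (s * t')) - e * w ^ 2 = 0 := by
    have hc : ContinuousOn (fun w : ℝ => 4 + w * (1 - 4 * e - 4 * (s * t')) - e * w ^ 2)
        (Set.Icc 0 4) := by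
      fun_prop
    have := intermediate_value_Icc' (by norm_num : (0:ℝ) ≤ 4) hc
    have h0 : (0:ℝ) ∈ Set.Icc (4 + (4:ℝ) * (1 - 4 * e - 4 * (s * t')) - e * 4 ^ 2)
        (4 + (0:ℝ) * (1 - 4 * e - 4 * (s * t')) - e * 0 ^ 2) := by
      constructor
      · nlinarith
      · norm_num
    obtain ⟨w, hw, hw2⟩ := this h0
    exact ⟨w, hw, hw2⟩
  have hw0 := hw.1
  have hw4 := hw.2
  rcases le_total 0 (t - t') with hpos | hneg
  · have hee : e = t - t' := by rw [he, abs_of_nonneg hpos]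
    refine ⟨![![0,0,1,w],![0,0,1+w,0],![1,1,0,0],![0,0,0,0]], ?_, ?_⟩
    · refine ⟨?_, ?_, ?_, ?_, ?_, ?_, ?_, ?_, ?_⟩
      · intro x y
        fin_cases x <;> fin_cases y <;> simp [hw0]
        linarith
      all_goals simp
      all_goals linarith
    · rw [hee] at hFw
      unfold ZeroCov pool
      simp [Fin.sum_univ_four]
      linear_combination hFw
  · have hee : e = t' - t := by rw [he, abs_of_nonpos hneg]; ring
    refine ⟨![![0,0,1+w,0],![0,0,1,w],![1,1,0,0],![0,0,0,0]], ?_, ?_⟩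
    · refine ⟨?_, ?_, ?_, ?_, ?_, ?_, ?_, ?_, ?_⟩
      · intro x y
        fin_cases x <;> fin_cases y <;> simp [hw0]
        linarith
      all_goals simp
      all_goals linarith
    · rw [hee] at hFw
      unfold ZeroCov pool
      simp [Fin.sum_univ_four]
      linear_combination hFw

theorem pool_swap (c d : ℝ) (r : Fin 4 → Fin 4 → ℝ) :
    (fun x y => pool c d r y x) = pool c d (fun x y => r y x) := by
  funext x y
  fin_cases x <;> fin_cases y <;> simp [pool]

theorem Bd.swap {k l : ℝ} {r : Fin 4 → Fin 4 → ℝ} (h : Bd k l r) : Bd k l (fun x y => r y x) := by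
  obtain ⟨h0, h1, h2, h3, h4, h5, h6, h7, h8⟩ := h
  exact ⟨fun x y => h0 y x, h3, h4, h1, h2, h7, h8, h5, h6⟩

theorem core_norm (s s' t t' : ℝ) (hs : 1 ≤ |s - s'|) (ht : 1 ≤ |t - t'|) :
    ∃ r, Bd 5 4 r ∧ ZeroCov (pool 1 0 r) ![1/2, -1/2, s, s'] ![1/2, -1/2, t, t'] := by
  by_cases h : 1/2 ≤ |s * t|
  · exact core_norm_big s s' t t' h
  · push Not at h
    by_cases hs1 : |s| < 1
    · exact core_norm_small s s' t t' h hs1 ht
    · have ht1 : |t| < 1 := by
        push Not at hs1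
        by_contra ht1
        push Not at ht1
        rw [abs_mul] at h
        nlinarith
      obtain ⟨r, hr, hz⟩ := core_norm_small t t' s s' (by rwa [mul_comm]) ht1 hs
      refine ⟨fun x y => r y x, hr.swap, ?_⟩
      rw [← pool_swap]
      exact hz.swap

/-- The pool around `M₀`. -/
theorem exists_pool0 (φ ψ : Fin 4 → ℝ) (hφ : |φ 0 - φ 1| ≤ |φ 2 - φ 3|)
    (hψ : |ψ 0 - ψ 1| ≤ |ψ 2 - ψ 3|) :
    ∃ r, Bd 5 4 r ∧ ZeroCov (pool 1 0 r) φ ψ := by
  by_cases h : (φ 0 - φ 1) * (ψ 0 - ψ 1) = 0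
  · refine ⟨_, ?_, pool0 φ ψ h⟩
    refine ⟨?_, ?_, ?_, ?_, ?_, ?_, ?_, ?_, ?_⟩
    · intro x y; fin_cases x <;> fin_cases y <;> simp
    all_goals simp
  · have h1 : φ 0 - φ 1 ≠ 0 := left_ne_zero_of_mul h
    have h2 : ψ 0 - ψ 1 ≠ 0 := right_ne_zero_of_mul h
    set B := φ 0 - φ 1 with hB
    set A := (φ 0 + φ 1) / 2 with hA
    set D := ψ 0 - ψ 1 with hD
    set C := (ψ 0 + ψ 1) / 2 with hC
    obtain ⟨r, hr, hz⟩ := core_norm ((φ 2 - A) / B) ((φ 3 - A) / B) ((ψ 2 - C) / D)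
      ((ψ 3 - C) / D)
      (by
        have e : (φ 2 - A) / B - (φ 3 - A) / B = (φ 2 - φ 3) / B := by ring
        rw [e, abs_div, le_div_iff₀ (abs_pos.mpr h1), one_mul]
        exact hφ)
      (by
        have e : (ψ 2 - C) / D - (ψ 3 - C) / D = (ψ 2 - ψ 3) / D := by ring
        rw [e, abs_div, le_div_iff₀ (abs_pos.mpr h2), one_mul]
        exact hψ)
    refine ⟨r, hr, hz.affine (A := A) (B := B) (A' := C) (B' := D) ?_ ?_⟩
    · intro c
      fin_cases c
      · simp [hA, hB]; ring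
      · simp [hA, hB]; ring
      · simp; field_simp; ring
      · simp; field_simp; ring
    · intro c
      fin_cases c
      · simp [hC, hD]; ring
      · simp [hC, hD]; ring
      · simp; field_simp; ring
      · simp; field_simp; ring

/-- The pool around `M₁`. -/
theorem exists_pool1 (φ ψ : Fin 4 → ℝ) (hφ : |φ 0 - φ 1| ≤ |φ 2 - φ 3|)
    (hψ : |ψ 0 - ψ 1| ≤ |ψ 2 - ψ 3|) :
    ∃ r, Bd 4 5 r ∧ ZeroCov (pool 0 1 r) φ ψ := by
  obtain ⟨r, hr, hz⟩ := exists_pool0 ![φ 0, φ 1, φ 3, φ 2] ![ψ 1, ψ 0, ψ 3, ψ 2]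
    (by simpa [abs_sub_comm (φ 3)] using hφ)
    (by simpa [abs_sub_comm (ψ 3), abs_sub_comm (ψ 1)] using hψ)
  obtain ⟨h0, h1, h2, h3, h4, h5, h6, h7, h8⟩ := hr
  refine ⟨![![0, 0, r 0 3, r 0 2], ![0, 0, r 1 3, r 1 2], ![r 3 1, r 3 0, 0, 0],
    ![r 2 1, r 2 0, 0, 0]], ?_, ?_⟩
  · refine ⟨?_, ?_, ?_, ?_, ?_, ?_, ?_, ?_, ?_⟩
    · intro x y
      fin_cases x <;> fin_cases y <;> simp [h0]
    all_goals simp
    all_goals assumption
  · unfold ZeroCov pool at *
    simp [Fin.sum_univ_four] at *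
    linear_combination hz

/-! ### The channel of one letter -/

/-- The one-letter channel given by core assignment `k` and cross weights `r`. -/
noncomputable def chan (a : ℝ) (k : ℕ → Fin 2 → ℝ) (r : Fin 2 → Fin 4 → Fin 4 → ℝ) :
    Sym → (Fin 2 ⊕ (Fin 4 × Fin 4)) → ℝ
  | Sum.inl i, Sum.inl j => k i j
  | Sum.inl _, Sum.inr _ => 0
  | Sum.inr xy, Sum.inl j => r j xy.1 xy.2 / (8 * a)
  | Sum.inr xy, Sum.inr xy' => if xy = xy' then 1 - (r 0 xy.1 xy.2 + r 1 xy.1 xy.2) / (8 * a) else 0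

/-- The class of one-letter problems solved by a finite channel. -/
def Solved (a : ℝ) (P : (Fin 4 → ℝ) → (Fin 4 → ℝ) → Prop) : Prop :=
  ∃ W : Sym → (Fin 2 ⊕ (Fin 4 × Fin 4)) → ℝ, (∀ z o, 0 ≤ W z o) ∧ (∀ z, ∑ o, W z o = 1) ∧
    ∀ u v, P u v → ∀ o, ZeroCov (fun x y => prob a x y * W (zsym x y) o) u v


theorem zeroCov_single (m : Fin 4 → Fin 4 → ℝ) (x₀ y₀ : Fin 4) (u v : Fin 4 → ℝ)
    (h : ∀ x y, (x, y) ≠ (x₀, y₀) → m x y = 0) : ZeroCov m u v := by
  have key : ∀ g : Fin 4 → Fin 4 → ℝ, (∑ x, ∑ y, m x y * g x y) = m x₀ y₀ * g x₀ y₀ := by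
    intro g
    rw [Finset.sum_eq_single x₀, Finset.sum_eq_single y₀]
    · intro y _ hy
      rw [h x₀ y (by intro h'; exact hy (Prod.mk.inj h').2), zero_mul]
    · intro h'; exact absurd (Finset.mem_univ _) h'
    · intro x _ hx
      refine Finset.sum_eq_zero (fun y _ => ?_)
      rw [h x y (by intro h'; exact hx (Prod.mk.inj h').1), zero_mul]
    · intro h'; exact absurd (Finset.mem_univ _) h'
  unfold ZeroCov
  have k1 := key (fun _ _ => 1)
  simp only [mul_one] at k1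
  rw [k1, key (fun x y => u x * v y), key (fun x _ => u x), key (fun _ y => v y)]
  ring

theorem solved_of_pools {a : ℝ} (ha : 0 < a) {P : (Fin 4 → ℝ) → (Fin 4 → ℝ) → Prop}
    (k : ℕ → Fin 2 → ℝ) (hk0 : ∀ i j, 0 ≤ k i j) (hk1 : ∀ i, k i 0 + k i 1 = 1)
    (r : Fin 2 → Fin 4 → Fin 4 → ℝ) (hr0 : ∀ j x y, 0 ≤ r j x y)
    (hr1 : ∀ x y, r 0 x y + r 1 x y ≤ 8 * a)
    (h : ∀ u v, P u v → ∀ j, ZeroCov (pool (k 0 j) (k 1 j) (r j)) u v) : Solved a P := by
  have h8 : (0:ℝ) < 8 * a := by linarith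
  refine ⟨chan a k r, ?_, ?_, ?_⟩
  · intro z o
    rcases z with i | xy <;> rcases o with j | xy'
    · exact hk0 i j
    · exact le_refl 0
    · exact div_nonneg (hr0 _ _ _) h8.le
    · simp only [chan]
      split_ifs
      · have := hr1 xy.1 xy.2
        rw [sub_nonneg, div_le_one h8]
        exact this
      · exact le_refl 0
  · intro z
    rw [Fintype.sum_sum_type, Fin.sum_univ_two]
    rcases z with i | xy
    · simp [chan, hk1 i]
    · simp only [chan]
      rw [Finset.sum_ite_eq Finset.univ xy]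
      simp
      ring
  · intro u v huv o
    rcases o with j | xy'
    · have := (h u v huv j).smul (1 / (8 * (1 + 8 * a)))
      have e : (fun x y => prob a x y * chan a k r (zsym x y) (Sum.inl j)) =
          fun x y => 1 / (8 * (1 + 8 * a)) * pool (k 0 j) (k 1 j) (r j) x y := by
        have h9 : (1 + 8 * a) ≠ 0 := by positivity
        funext x y
        fin_cases x <;> fin_cases y <;> simp [prob, w, zsym, chan, pool] <;> field_simp <;>
          first | ring1 | simp
      rw [e]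
      exact this
    · apply zeroCov_single _ xy'.1 xy'.2
      intro x y hxy
      have : chan a k r (zsym x y) (Sum.inr xy') = 0 := by
        unfold zsym
        split_ifs
        · rfl
        · rfl
        · simp only [chan]
          rw [if_neg hxy]
      rw [this, mul_zero]


/-- all core mass to pool `0`. -/
def kMerge : ℕ → Fin 2 → ℝ := fun _ j => if j = 0 then 1 else 0

/-- symbol `0` to pool `0`, every other symbol to pool `1`. -/
def kSplit : ℕ → Fin 2 → ℝ := fun i j => if i = 0 then (if j = 0 then 1 else 0) else (if j = 0 then 0 else 1)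

theorem zeroCov_zero (u v : Fin 4 → ℝ) : ZeroCov (pool 0 0 (fun _ _ => 0)) u v := by
  unfold ZeroCov pool
  simp [Fin.sum_univ_four]

theorem solved_merge {a : ℝ} (ha : 9 / 8 ≤ a) {P : (Fin 4 → ℝ) → (Fin 4 → ℝ) → Prop}
    (r : Fin 4 → Fin 4 → ℝ) (hr0 : ∀ x y, 0 ≤ r x y) (hr1 : ∀ x y, r x y ≤ 9)
    (h : ∀ u v, P u v → ZeroCov (pool 1 1 r) u v) : Solved a P := by
  refine solved_of_pools (by linarith) kMerge ?_ ?_ (fun j => if j = 0 then r else fun _ _ => 0)
    ?_ ?_ ?_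
  · intro i j; unfold kMerge; split_ifs <;> norm_num
  · intro i; simp [kMerge]
  · intro j x y
    split_ifs
    · exact hr0 x y
    · exact le_refl 0
  · intro x y
    have := hr1 x y
    simp
    linarith
  · intro u v huv j
    fin_cases j
    · simpa [kMerge] using h u v huv
    · simpa [kMerge] using zeroCov_zero u v

/-- cross cells only. -/
def crs (r : Fin 4 → Fin 4 → ℝ) : Fin 4 → Fin 4 → ℝ :=
  ![![0, 0, r 0 2, r 0 3], ![0, 0, r 1 2, r 1 3], ![r 2 0, r 2 1, 0, 0], ![r 3 0, r 3 1, 0, 0]]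

theorem pool_crs (c d : ℝ) (r : Fin 4 → Fin 4 → ℝ) : pool c d (crs r) = pool c d r := by
  funext x y
  fin_cases x <;> fin_cases y <;> simp [pool, crs]

theorem solved_split {a : ℝ} (ha : 9 / 8 ≤ a) {P : (Fin 4 → ℝ) → (Fin 4 → ℝ) → Prop}
    (r₀ r₁ : Fin 4 → Fin 4 → ℝ) (hr0 : Bd 5 4 r₀) (hr1 : Bd 4 5 r₁)
    (h : ∀ u v, P u v → ZeroCov (pool 1 0 r₀) u v ∧ ZeroCov (pool 0 1 r₁) u v) : Solved a P := by
  obtain ⟨h0, h1, h2, h3, h4, h5, h6, h7, h8⟩ := hr0
  obtain ⟨g0, g1, g2, g3, g4, g5, g6, g7, g8⟩ := hr1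
  refine solved_of_pools (by linarith) kSplit ?_ ?_ (fun j => if j = 0 then crs r₀ else crs r₁)
    ?_ ?_ ?_
  · intro i j; unfold kSplit; split_ifs <;> norm_num
  · intro i
    unfold kSplit
    split_ifs <;> simp_all
  · intro j x y
    split_ifs
    · fin_cases x <;> fin_cases y <;> simp [crs, h0]
    · fin_cases x <;> fin_cases y <;> simp [crs, g0]
  · intro x y
    fin_cases x <;> fin_cases y <;> simp [crs] <;> linarith
  · intro u v huv j
    obtain ⟨e0, e1⟩ := h u v huv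
    fin_cases j
    · simpa [kSplit, pool_crs] using e0
    · simpa [kSplit, pool_crs] using e1

/-- Both sides one-dimensional. -/
theorem solved_oneDim {a : ℝ} (ha : 9 / 8 ≤ a) (φ ψ : Fin 4 → ℝ) :
    Solved a (fun u v => (∃ A B : ℝ, ∀ c, u c = A + B * φ c) ∧
      (∃ A B : ℝ, ∀ c, v c = A + B * ψ c)) := by
  by_cases hφ : |φ 0 - φ 1| ≤ |φ 2 - φ 3|
  · by_cases hψ : |ψ 0 - ψ 1| ≤ |ψ 2 - ψ 3|
    · obtain ⟨r₀, hr0, hz0⟩ := exists_pool0 φ ψ hφ hψ
      obtain ⟨r₁, hr1, hz1⟩ := exists_pool1 φ ψ hφ hψ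
      refine solved_split ha r₀ r₁ hr0 hr1 ?_
      rintro u v ⟨⟨A, B, hu⟩, ⟨A', B', hv⟩⟩
      exact ⟨hz0.affine hu hv, hz1.affine hu hv⟩
    · push Not at hψ
      have hne : ψ 0 - ψ 1 ≠ 0 := by
        intro h0; rw [h0, abs_zero] at hψ
        exact absurd hψ (not_lt.mpr (abs_nonneg _))
      set ε : ℝ := -((ψ 2 - ψ 3) / (ψ 0 - ψ 1)) with hε
      have hε1 : |ε| ≤ 1 := by
        rw [hε, abs_neg, abs_div, div_le_one (abs_pos.mpr hne)]
        exact hψ.le
      have hεl := (abs_le.mp hε1).1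
      have hεr := (abs_le.mp hε1).2
      refine solved_merge ha ![![0,0,1,1],![0,0,1,1],![1+ε,1-ε,0,0],![1-ε,1+ε,0,0]] ?_ ?_
        (fun u v huv => ?_)
      · intro x y; fin_cases x <;> fin_cases y <;> simp <;> linarith
      · intro x y; fin_cases x <;> fin_cases y <;> simp <;> linarith
      · obtain ⟨⟨A, B, hu⟩, ⟨A', B', hv⟩⟩ := huv
        refine (pool_merged' ε φ ψ ?_).affine hu hv
        rw [hε]; field_simp
  · push Not at hφ
    have hne : φ 0 - φ 1 ≠ 0 := by
      intro h0; rw [h0, abs_zero] at hφ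
      exact absurd hφ (not_lt.mpr (abs_nonneg _))
    set ε : ℝ := -((φ 2 - φ 3) / (φ 0 - φ 1)) with hε
    have hε1 : |ε| ≤ 1 := by
      rw [hε, abs_neg, abs_div, div_le_one (abs_pos.mpr hne)]
      exact hφ.le
    have hεl := (abs_le.mp hε1).1
    have hεr := (abs_le.mp hε1).2
    refine solved_merge ha ![![0,0,1+ε,1-ε],![0,0,1-ε,1+ε],![1,1,0,0],![1,1,0,0]] ?_ ?_
      (fun u v huv => ?_)
    · intro x y; fin_cases x <;> fin_cases y <;> simp <;> linarith
    · intro x y; fin_cases x <;> fin_cases y <;> simp <;> linarith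
    · obtain ⟨⟨A, B, hu⟩, ⟨A', B', hv⟩⟩ := huv
      refine (pool_merged ε φ ψ ?_).affine hu hv
      rw [hε]; field_simp

/-- The left side does not distinguish `0` and `1`, or the right side does not. -/
theorem solved_eq {a : ℝ} (ha : 9 / 8 ≤ a) :
    Solved a (fun u v => u 0 = u 1 ∨ v 0 = v 1) := by
  refine solved_split ha ![![0,0,1,0],![0,0,1,0],![1,1,0,0],![0,0,0,0]]
    ![![0,0,0,1],![0,0,0,1],![0,0,0,0],![1,1,0,0]] ?_ ?_ ?_
  · refine ⟨?_, ?_, ?_, ?_, ?_, ?_, ?_, ?_, ?_⟩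
    · intro x y; fin_cases x <;> fin_cases y <;> simp
    all_goals simp
  · refine ⟨?_, ?_, ?_, ?_, ?_, ?_, ?_, ?_, ?_⟩
    · intro x y; fin_cases x <;> fin_cases y <;> simp
    all_goals simp
  · intro u v huv
    have : (u 0 - u 1) * (v 0 - v 1) = 0 := by
      rcases huv with h | h <;> rw [h] <;> ring
    exact ⟨pool0 u v this, pool1 u v this⟩

theorem solved_left {a : ℝ} (ha : 9 / 8 ≤ a) (ε : ℝ) (hε : |ε| ≤ 1) :
    Solved a (fun u _ => u 2 - u 3 = ε * (u 0 - u 1)) := by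
  have hεl := (abs_le.mp hε).1
  have hεr := (abs_le.mp hε).2
  refine solved_merge ha ![![0,0,1+(-ε),1-(-ε)],![0,0,1-(-ε),1+(-ε)],![1,1,0,0],![1,1,0,0]]
    ?_ ?_ (fun u v huv => ?_)
  · intro x y; fin_cases x <;> fin_cases y <;> simp <;> linarith
  · intro x y; fin_cases x <;> fin_cases y <;> simp <;> linarith
  · refine pool_merged (-ε) u v ?_
    rw [huv]; ring

theorem solved_right {a : ℝ} (ha : 9 / 8 ≤ a) (ε : ℝ) (hε : |ε| ≤ 1) :
    Solved a (fun _ v => v 2 - v 3 = ε * (v 0 - v 1)) := by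
  have hεl := (abs_le.mp hε).1
  have hεr := (abs_le.mp hε).2
  refine solved_merge ha ![![0,0,1,1],![0,0,1,1],![1+(-ε),1-(-ε),0,0],![1-(-ε),1+(-ε),0,0]]
    ?_ ?_ (fun u v huv => ?_)
  · intro x y; fin_cases x <;> fin_cases y <;> simp <;> linarith
  · intro x y; fin_cases x <;> fin_cases y <;> simp <;> linarith
  · refine pool_merged' (-ε) u v ?_
    rw [huv]; ring

/-! ### Products -/

theorem sum_cons {N : ℕ} (f : (Fin (N+1) → Fin 4) → ℝ) :
    ∑ x, f x = ∑ c, ∑ x', f (Fin.cons c x') := by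
  rw [← (Fin.consEquiv (fun _ : Fin (N+1) => Fin 4)).sum_comp, Fintype.sum_prod_type]
  rfl

theorem sum_cons2 {N : ℕ} (F : (Fin (N+1) → Fin 4) → (Fin (N+1) → Fin 4) → ℝ) :
    ∑ x, ∑ y, F x y = ∑ x', ∑ y', ∑ c, ∑ d, F (Fin.cons c x') (Fin.cons d y') := by
  rw [sum_cons, Finset.sum_comm]
  refine Finset.sum_congr rfl (fun x' _ => ?_)
  simp_rw [sum_cons (N := N)]
  have : ∀ c : Fin 4, ∑ d, ∑ y', F (Fin.cons c x') (Fin.cons d y') =
      ∑ y', ∑ d, F (Fin.cons c x') (Fin.cons d y') := fun c => Finset.sum_comm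
  simp_rw [this]
  rw [Finset.sum_comm]

/-- The `N`-letter version of `ZeroCov`. -/
def ZC {N : ℕ} (m : Fin N → Fin 4 → Fin 4 → ℝ) (p q : (Fin N → Fin 4) → ℝ) : Prop :=
  (∑ x : Fin N → Fin 4, ∑ y : Fin N → Fin 4, ∏ i, m i (x i) (y i)) *
    (∑ x : Fin N → Fin 4, ∑ y : Fin N → Fin 4, (∏ i, m i (x i) (y i)) * (p x * q y)) =
  (∑ x : Fin N → Fin 4, ∑ y : Fin N → Fin 4, (∏ i, m i (x i) (y i)) * p x) *
    (∑ x : Fin N → Fin 4, ∑ y : Fin N → Fin 4, (∏ i, m i (x i) (y i)) * q y)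

theorem sum_prod_cons {N : ℕ} (m : Fin (N+1) → Fin 4 → Fin 4 → ℝ)
    (g : (Fin (N+1) → Fin 4) → (Fin (N+1) → Fin 4) → ℝ) :
    (∑ x : Fin (N+1) → Fin 4, ∑ y : Fin (N+1) → Fin 4, (∏ i, m i (x i) (y i)) * g x y) =
      ∑ x', ∑ y', (∏ i : Fin N, m i.succ (x' i) (y' i)) *
        (∑ c, ∑ d, m 0 c d * g (Fin.cons c x') (Fin.cons d y')) := by
  rw [sum_cons2]
  refine Finset.sum_congr rfl (fun x' _ => Finset.sum_congr rfl (fun y' _ => ?_))
  rw [Finset.mul_sum]
  refine Finset.sum_congr rfl (fun c _ => ?_)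
  rw [Finset.mul_sum]
  refine Finset.sum_congr rfl (fun d _ => ?_)
  rw [Fin.prod_univ_succ]
  simp only [Fin.cons_zero, Fin.cons_succ]
  ring

theorem ZC_of {N : ℕ} : ∀ (m : Fin N → Fin 4 → Fin 4 → ℝ) (p q : (Fin N → Fin 4) → ℝ)
    (_ : ∀ i x y, ZeroCov (m i) (fun c => p (Function.update x i c))
      (fun c => q (Function.update y i c))),
    ZC m p q := by
  induction N with
  | zero =>
    intro m p q _
    unfold ZC
    simp
  | succ N ih =>
    intro m p q h
    set P : (Fin N → Fin 4) → ℝ := fun x' => ∑ c, (∑ d, m 0 c d) * p (Fin.cons c x') with hP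
    set Q : (Fin N → Fin 4) → ℝ := fun y' => ∑ d, (∑ c, m 0 c d) * q (Fin.cons d y') with hQ
    have hPx : ∀ x', (∑ c, ∑ d, m 0 c d * p (Fin.cons c x')) = P x' := by
      intro x'
      simp only [hP, Finset.sum_mul]
    have hQy : ∀ y', (∑ c, ∑ d, m 0 c d * q (Fin.cons d y')) = Q y' := by
      intro y'
      simp only [hQ, Finset.sum_mul]
      rw [Finset.sum_comm]
    have htail : ZC (fun i => m i.succ) P Q := by
      apply ih
      intro i x y
      have hu : ∀ e, P (Function.update x i e) =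
          ∑ c, (∑ d, m 0 c d) * p (Function.update (Fin.cons c x) i.succ e) := by
        intro e
        simp only [hP, Fin.cons_update]
      have hv : ∀ e, Q (Function.update y i e) =
          ∑ d, (∑ c, m 0 c d) * q (Function.update (Fin.cons d y) i.succ e) := by
        intro e
        simp only [hQ, Fin.cons_update]
      simp only [hu, hv]
      exact ZeroCov.comb_left (fun k => ZeroCov.comb_right (fun l => h i.succ _ _) _) _
    have h0 : ∀ x' y', (∑ c, ∑ d, m 0 c d) *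
        (∑ c, ∑ d, m 0 c d * (p (Fin.cons c x') * q (Fin.cons d y'))) = P x' * Q y' := by
      intro x' y'
      have := h 0 (Fin.cons 0 x') (Fin.cons 0 y')
      unfold ZeroCov at this
      simp only [Fin.update_cons_zero] at this
      rw [this, hPx, hQy]
    unfold ZC at *
    have e1 := sum_prod_cons m (fun _ _ => 1)
    have e2 := sum_prod_cons m (fun x _ => p x)
    have e3 := sum_prod_cons m (fun _ y => q y)
    have e4 := sum_prod_cons m (fun x y => p x * q y)
    simp only [mul_one] at e1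
    simp only [hPx] at e2
    simp only [hQy] at e3
    have e1' : (∑ x : Fin (N+1) → Fin 4, ∑ y : Fin (N+1) → Fin 4, ∏ i, m i (x i) (y i)) =
        (∑ c, ∑ d, m 0 c d) *
          (∑ x : Fin N → Fin 4, ∑ y : Fin N → Fin 4, ∏ i : Fin N, m i.succ (x i) (y i)) := by
      rw [e1]
      simp_rw [← Finset.sum_mul]
      ring
    have e4' : (∑ c, ∑ d, m 0 c d) * (∑ x : Fin (N+1) → Fin 4, ∑ y : Fin (N+1) → Fin 4,
        (∏ i, m i (x i) (y i)) * (p x * q y)) =
        (∑ x : Fin N → Fin 4, ∑ y : Fin N → Fin 4,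
          (∏ i : Fin N, m i.succ (x i) (y i)) * (P x * Q y)) := by
      rw [e4, Finset.mul_sum]
      refine Finset.sum_congr rfl (fun x' _ => ?_)
      rw [Finset.mul_sum]
      refine Finset.sum_congr rfl (fun y' _ => ?_)
      rw [← h0]
      ring
    rw [e1', e2, e3, ← htail, ← e4']
    ring

/-! ### Conditional independence -/

theorem condIndep_of {a : ℝ} {N : ℕ} {ι : Type} (p q : (Fin N → Fin 4) → ℝ)
    (W : (Fin N → Sym) → ι → ℝ) (m : ι → Fin N → Fin 4 → Fin 4 → ℝ)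
    (hm : ∀ o x y, probN a x y * W (zsymN x y) o = ∏ i, m o i (x i) (y i))
    (h : ∀ o, ZC (m o) p q) : CondIndep a p q W := by
  intro o ho s t
  have hz := h o
  set M : ℝ := ∑ x : Fin N → Fin 4, ∑ y : Fin N → Fin 4, ∏ i, m o i (x i) (y i) with hM
  set Ep : ℝ := ∑ x : Fin N → Fin 4, ∑ y : Fin N → Fin 4, (∏ i, m o i (x i) (y i)) * p x with hEp
  set Eq : ℝ := ∑ x : Fin N → Fin 4, ∑ y : Fin N → Fin 4, (∏ i, m o i (x i) (y i)) * q y with hEq
  set Epq : ℝ := ∑ x : Fin N → Fin 4, ∑ y : Fin N → Fin 4,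
    (∏ i, m o i (x i) (y i)) * (p x * q y) with hEpq
  have hzc : M * Epq = Ep * Eq := hz
  have j11 : joint a p q W true true o = Epq := by
    unfold joint bitProb
    rw [hEpq]
    refine Finset.sum_congr rfl (fun x _ => Finset.sum_congr rfl (fun y _ => ?_))
    rw [← hm]; simp; ring
  have j10 : joint a p q W true false o = Ep - Epq := by
    unfold joint bitProb
    rw [hEpq, hEp, ← Finset.sum_sub_distrib]
    refine Finset.sum_congr rfl (fun x _ => ?_)
    rw [← Finset.sum_sub_distrib]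
    refine Finset.sum_congr rfl (fun y _ => ?_)
    rw [← hm]; simp; ring
  have j01 : joint a p q W false true o = Eq - Epq := by
    unfold joint bitProb
    rw [hEpq, hEq, ← Finset.sum_sub_distrib]
    refine Finset.sum_congr rfl (fun x _ => ?_)
    rw [← Finset.sum_sub_distrib]
    refine Finset.sum_congr rfl (fun y _ => ?_)
    rw [← hm]; simp; ring
  have j00 : joint a p q W false false o = M - Ep - Eq + Epq := by
    unfold joint bitProb
    rw [hEpq, hEq, hEp, hM, ← Finset.sum_sub_distrib, ← Finset.sum_sub_distrib,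
      ← Finset.sum_add_distrib]
    refine Finset.sum_congr rfl (fun x _ => ?_)
    rw [← Finset.sum_sub_distrib, ← Finset.sum_sub_distrib, ← Finset.sum_add_distrib]
    refine Finset.sum_congr rfl (fun y _ => ?_)
    rw [← hm]; simp; ring
  have hout : outProb a p q W o = M := by
    unfold outProb
    simp only [Fintype.sum_bool, j11, j10, j01, j00]
    ring
  rw [hout] at ho ⊢
  have hM0 : M ≠ 0 := ho.ne'
  cases s <;> cases t <;> simp only [Fintype.sum_bool, j11, j10, j01, j00] <;> field_simp <;>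
    first | linear_combination hzc | linear_combination (-1 : ℝ) * hzc

theorem exists_channel {a : ℝ} {N : ℕ} (p q : (Fin N → Fin 4) → ℝ)
    (h : ∀ i, ∃ P : (Fin 4 → ℝ) → (Fin 4 → ℝ) → Prop, Solved a P ∧
      ∀ x y, P (fun c => p (Function.update x i c)) (fun c => q (Function.update y i c))) :
    ∃ (ι : Type) (_ : Fintype ι) (W : (Fin N → Sym) → ι → ℝ), IsChannel W ∧
      CondIndep a p q W := by
  choose P hP hPxy using h
  choose V hV0 hV1 hVz using hP
  refine ⟨Fin N → (Fin 2 ⊕ (Fin 4 × Fin 4)), inferInstance,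
    fun z o => ∏ i, V i (z i) (o i), ⟨?_, ?_⟩, ?_⟩
  · intro z o
    exact Finset.prod_nonneg (fun i _ => hV0 i _ _)
  · intro z
    have := Finset.prod_univ_sum (fun _ : Fin N => (Finset.univ : Finset (Fin 2 ⊕ (Fin 4 × Fin 4))))
      (fun i o => V i (z i) o)
    rw [Fintype.piFinset_univ] at this
    rw [← this]
    exact Finset.prod_eq_one (fun i _ => hV1 i _)
  · refine condIndep_of p q _ (fun o i x y => prob a x y * V i (zsym x y) (o i)) ?_ ?_
    · intro o x y
      unfold probN zsymN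
      rw [← Finset.prod_mul_distrib]
    · intro o
      apply ZC_of
      intro i x y
      exact hVz i _ _ (hPxy i x y) (o i)

/-- **Main result.** For every `a ≥ 9/8` and `N ≥ 1`, every pair of binarizations `p` of `X^N` and
`q` of `Y^N` admits a channel of `Z^N`, with finitely many outputs, given which the two bits are
conditionally independent, provided `N = 1` or, in every coordinate, both `p` and `q` are
one-dimensional or at least one of them is flat. -/
theorem result (a : ℝ) (ha : 9 / 8 ≤ a) (N : ℕ) (p q : (Fin N → Fin 4) → ℝ)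
    (hp : IsBinarization p) (hq : IsBinarization q)
    (h : N = 1 ∨ ∀ i, (OneDim p i ∧ OneDim q i) ∨ Flat p i ∨ Flat q i) :
    ∃ (ι : Type) (_ : Fintype ι) (W : (Fin N → Sym) → ι → ℝ), IsChannel W ∧
      CondIndep a p q W := by
  have h' : ∀ i, (OneDim p i ∧ OneDim q i) ∨ Flat p i ∨ Flat q i := by
    rcases h with h | h
    · subst h
      intro i
      have hone : ∀ f : (Fin 1 → Fin 4) → ℝ, OneDim f i := by
        intro f
        refine ⟨fun c => f (fun _ => c), fun x => ⟨0, 1, fun c => ?_⟩⟩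
        have : Function.update x i c = fun _ => c := by
          funext j
          rw [Subsingleton.elim j i, Function.update_self]
        rw [this]; ring
      exact Or.inl ⟨hone p, hone q⟩
    · exact h
  refine exists_channel p q (fun i => ?_)
  rcases h' i with ⟨⟨φ, hφ⟩, ⟨ψ, hψ⟩⟩ | (h1 | ⟨ε, hε, h1⟩) | (h1 | ⟨ε, hε, h1⟩)
  · exact ⟨_, solved_oneDim ha φ ψ, fun x y => ⟨hφ x, hψ y⟩⟩
  · exact ⟨_, solved_eq ha, fun x y => Or.inl (h1 x)⟩
  · exact ⟨_, solved_left ha ε hε, fun x y => h1 x⟩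
  · exact ⟨_, solved_eq ha, fun x y => Or.inr (h1 y)⟩
  · exact ⟨_, solved_right ha ε hε, fun x y => h1 y⟩

end Pool.Agent.Results.MP_c084cb_lc.SingleCopy
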