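import Pool.Agent.Lib_helper40.SK.P.ERAS

/-!
# The property of Q1 fails for every `a < 1/8`, already for one copy
-/

namespace Pool.Agent.Results.MP_c084cb_lc.SmallWeights

open Pool.Agent.SK

noncomputable section

open scoped Classical

/-- the bit `1` on the letters `2, 3` -/
def pH (x : Fin 1 → Fin 4) : ℝ := if (x 0).val < 2 then 0 else 1

/-- its complement -/
def pL (x : Fin 1 → Fin 4) : ℝ := if (x 0).val < 2 then 1 else 0

theorem sum_word (h : (Fin 1 → Fin 4) → ℝ) : ∑ x, h x = ∑ i : Fin 4, h ![i] := by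
  refine Fintype.sum_equiv (Equiv.funUnique (Fin 1) (Fin 4)) _ _ (fun x => ?_)
  congr 1
  funext i
  fin_cases i
  rfl

theorem pw_one (a : ℝ) (i j : Fin 4) : pw (Fin 1) (PE a) ![i] ![j] = PE a i j := by
  simp [pw]

theorem zw_one (i j : Fin 4) (z : Fin 1 → Fin 2 ⊕ (Fin 4 × Fin 4)) :
    (zw (Fin 1) zE ![i] ![j] = z) ↔ zE i j = z 0 := by
  constructor
  · intro h
    rw [← h]
    rfl
  · intro h
    funext k
    fin_cases k
    exact h

theorem Bz_one (a : ℝ) (f g : (Fin 1 → Fin 4) → ℝ) (z : Fin 1 → Fin 2 ⊕ (Fin 4 × Fin 4)) :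
    Bz (pw (Fin 1) (PE a)) (zw (Fin 1) zE) f g z =
      ∑ i, ∑ j, if zE i j = z 0 then PE a i j * f ![i] * g ![j] else 0 := by
  unfold Bz
  rw [sum_word]
  refine Finset.sum_congr rfl fun i _ => ?_
  rw [sum_word]
  refine Finset.sum_congr rfl fun j _ => ?_
  rw [pw_one]
  simp only [zw_one]

theorem Bz_add_left (a : ℝ) (f f' g : (Fin 1 → Fin 4) → ℝ)
    (z : Fin 1 → Fin 2 ⊕ (Fin 4 × Fin 4)) :
    Bz (pw (Fin 1) (PE a)) (zw (Fin 1) zE) (fun x => f x + f' x) g z =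
      Bz (pw (Fin 1) (PE a)) (zw (Fin 1) zE) f g z +
        Bz (pw (Fin 1) (PE a)) (zw (Fin 1) zE) f' g z := by
  unfold Bz
  rw [← Finset.sum_add_distrib]
  refine Finset.sum_congr rfl fun x _ => ?_
  rw [← Finset.sum_add_distrib]
  refine Finset.sum_congr rfl fun y _ => ?_
  split_ifs <;> ring

theorem Bz_add_right (a : ℝ) (f g g' : (Fin 1 → Fin 4) → ℝ)
    (z : Fin 1 → Fin 2 ⊕ (Fin 4 × Fin 4)) :
    Bz (pw (Fin 1) (PE a)) (zw (Fin 1) zE) f (fun x => g x + g' x) z =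
      Bz (pw (Fin 1) (PE a)) (zw (Fin 1) zE) f g z +
        Bz (pw (Fin 1) (PE a)) (zw (Fin 1) zE) f g' z := by
  unfold Bz
  rw [← Finset.sum_add_distrib]
  refine Finset.sum_congr rfl fun x _ => ?_
  rw [← Finset.sum_add_distrib]
  refine Finset.sum_congr rfl fun y _ => ?_
  split_ifs <;> ring

theorem one_eq : (fun _ : Fin 1 → Fin 4 => (1 : ℝ)) = fun x => pH x + pL x := by
  funext x
  unfold pH pL
  split_ifs <;> norm_num

/-- For `0 < a < 1/8` and `N = 1` the bit (the letter is `2` or `3`) of Alice and the same bit of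
Bob are conditionally dependent given the output of every channel of `Z`. -/
theorem result (a : ℝ) (ha : 0 < a) (ha8 : a < 1 / 8) :
    ∃ (p q : (Fin 1 → Fin 4) → ℝ), (∀ x, 0 ≤ p x ∧ p x ≤ 1) ∧ (∀ y, 0 ≤ q y ∧ q y ≤ 1) ∧
      ∀ (ι : Type) (W : (Fin 1 → Fin 2 ⊕ (Fin 4 × Fin 4)) → ι → ℝ), (∀ z o, 0 ≤ W z o) →
        (∀ z, HasSum (W z) 1) →
        ¬ ∀ o : ι,
          (∑ z, W z o * Bz (pw (Fin 1) (PE a)) (zw (Fin 1) zE) p q z) *
              (∑ z, W z o *
                Bz (pw (Fin 1) (PE a)) (zw (Fin 1) zE) (fun _ => 1) (fun _ => 1) z) =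
            (∑ z, W z o * Bz (pw (Fin 1) (PE a)) (zw (Fin 1) zE) p (fun _ => 1) z) *
              (∑ z, W z o * Bz (pw (Fin 1) (PE a)) (zw (Fin 1) zE) (fun _ => 1) q z) := by
  have hP : ∀ x y, 0 ≤ pw (Fin 1) (PE a) x y := by
    intro x y
    refine Finset.prod_nonneg fun i _ => ?_
    unfold PE w
    have : 0 < 1 + 8 * a := by positivity
    split_ifs <;> positivity
  have hH : ∀ x, 0 ≤ pH x := by intro x; unfold pH; split_ifs <;> norm_num
  have hL : ∀ x, 0 ≤ pL x := by intro x; unfold pL; split_ifs <;> norm_num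
  refine ⟨pH, pH, ?_, ?_, ?_⟩
  · intro x; unfold pH; split_ifs <;> norm_num
  · intro x; unfold pH; split_ifs <;> norm_num
  intro ι W hW0 hW hind
  have hp8 : (0 : ℝ) < 1 + 8 * a := by positivity
  have key := eras_core (fun z => Bz (pw (Fin 1) (PE a)) (zw (Fin 1) zE) pL pL z)
    (fun z => Bz (pw (Fin 1) (PE a)) (zw (Fin 1) zE) pL pH z)
    (fun z => Bz (pw (Fin 1) (PE a)) (zw (Fin 1) zE) pH pL z)
    (fun z => Bz (pw (Fin 1) (PE a)) (zw (Fin 1) zE) pH pH z)
    (fun z => eras_Bz_nonneg _ hP _ hL hL z) (fun z => eras_Bz_nonneg _ hP _ hL hH z)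
    (fun z => eras_Bz_nonneg _ hP _ hH hL z) (fun z => eras_Bz_nonneg _ hP _ hH hH z)
    W hW0 hW (by
      intro o
      have h := hind o
      rw [one_eq] at h
      simp only [Bz_add_left, Bz_add_right, mul_add, Finset.sum_add_distrib] at h
      linarith)
  -- the left side
  have hval : ∀ k : Fin 2, Bz (pw (Fin 1) (PE a)) (zw (Fin 1) zE) pL pL ![Sum.inl k] =
      1 / 4 / (1 + 8 * a) ∧ Bz (pw (Fin 1) (PE a)) (zw (Fin 1) zE) pH pH ![Sum.inl k] =
      1 / 4 / (1 + 8 * a) := by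
    intro k
    constructor <;> rw [Bz_one] <;> fin_cases k <;>
      simp [Fin.sum_univ_four, zE, pL, pH, PE, w] <;> field_simp <;> norm_num
  have hlow : 1 / 2 / (1 + 8 * a) ≤
      ∑ z, Real.sqrt (Bz (pw (Fin 1) (PE a)) (zw (Fin 1) zE) pL pL z *
        Bz (pw (Fin 1) (PE a)) (zw (Fin 1) zE) pH pH z) := by
    have hne : (![Sum.inl 0] : Fin 1 → Fin 2 ⊕ (Fin 4 × Fin 4)) ≠ ![Sum.inl 1] := by
      intro h
      have := congrFun h 0
      simp at this
    have hsub := Finset.sum_le_sum_of_subset_of_nonneg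
      (f := fun z => Real.sqrt (Bz (pw (Fin 1) (PE a)) (zw (Fin 1) zE) pL pL z *
        Bz (pw (Fin 1) (PE a)) (zw (Fin 1) zE) pH pH z))
      (Finset.subset_univ ({![Sum.inl 0], ![Sum.inl 1]} :
        Finset (Fin 1 → Fin 2 ⊕ (Fin 4 × Fin 4)))) (fun z _ _ => Real.sqrt_nonneg _)
    rw [Finset.sum_pair hne, (hval 0).1, (hval 0).2, (hval 1).1, (hval 1).2,
      Real.sqrt_mul_self (by positivity)] at hsub
    refine le_trans (le_of_eq ?_) hsub
    ring
  -- the right side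
  have hsum : ∀ f g : (Fin 1 → Fin 4) → ℝ,
      ∑ z, Bz (pw (Fin 1) (PE a)) (zw (Fin 1) zE) f g z = ∑ i, ∑ j, PE a i j * f ![i] * g ![j] := by
    intro f g
    unfold Bz
    rw [Finset.sum_comm, sum_word]
    refine Finset.sum_congr rfl fun i _ => ?_
    rw [Finset.sum_comm, sum_word]
    refine Finset.sum_congr rfl fun j _ => ?_
    rw [Finset.sum_eq_single (zw (Fin 1) zE ![i] ![j])]
    · rw [if_pos rfl, pw_one]
    · intro b _ hb
      rw [if_neg]
      exact fun h => hb h.symm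
    · intro h
      exact absurd (Finset.mem_univ _) h
  have h01 : ∑ z, Bz (pw (Fin 1) (PE a)) (zw (Fin 1) zE) pL pH z = 4 * a / (1 + 8 * a) := by
    rw [hsum]
    simp [Fin.sum_univ_four, pL, pH, PE, w]
    field_simp
    ring
  have h10 : ∑ z, Bz (pw (Fin 1) (PE a)) (zw (Fin 1) zE) pH pL z = 4 * a / (1 + 8 * a) := by
    rw [hsum]
    simp [Fin.sum_univ_four, pL, pH, PE, w]
    field_simp
    ring
  rw [h01, h10, Real.sqrt_mul_self (by positivity)] at key
  have hfin := le_trans hlow key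
  rw [div_le_div_iff_of_pos_right hp8] at hfin
  linarith

end

end Pool.Agent.Results.MP_c084cb_lc.SmallWeights
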