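import Pool.Agent.Lib_helper40.SK.P.ERAS
import Pool.Agent.Lib_helper40.SK.P.T2

/-!
# Two copies: no channel of Eve makes post-selected bits independent, for every `a > 0`

For every `a > 0` there are binary outputs with erasure of `X²` and `Y²` such that, given that
neither output is erased, the two bits are conditionally dependent given the output of every
channel of `Z²`.
-/

namespace Pool.Agent.Results.MP_c084cb_lc.TwoCopyErasure

open Pool.Agent.SK

/-- `f i x`, `g j y` are the probabilities of the outputs `i`, `j` (erasure otherwise);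
`∑ z, W z o * Bz … (f i) (g j) z` is the probability that the outputs are `i`, `j` and Eve's
channel outputs `o`. -/
theorem result (a : ℝ) (ha : 0 < a) :
    ∃ (f g : Fin 2 → (Fin 2 → Fin 4) → ℝ), Tern (f 0) (f 1) ∧ Tern (g 0) (g 1) ∧
      0 < (∑ i, ∑ j, Bt (pw (Fin 2) (PE a)) (f i) (g j)) ∧
      ∀ (ι : Type) (W : (Fin 2 → Fin 2 ⊕ (Fin 4 × Fin 4)) → ι → ℝ), (∀ z o, 0 ≤ W z o) →
        (∀ z, HasSum (W z) 1) →
        ¬ ∀ (o : ι) (i j : Fin 2),
          (∑ z, W z o * Bz (pw (Fin 2) (PE a)) (zw (Fin 2) zE) (f i) (g j) z) *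
              (∑ i', ∑ j', ∑ z, W z o *
                Bz (pw (Fin 2) (PE a)) (zw (Fin 2) zE) (f i') (g j') z) =
            (∑ j', ∑ z, W z o * Bz (pw (Fin 2) (PE a)) (zw (Fin 2) zE) (f i) (g j') z) *
              (∑ i', ∑ z, W z o * Bz (pw (Fin 2) (PE a)) (zw (Fin 2) zE) (f i') (g j) z) :=
  eras (pw (Fin 2) (PE a)) (IsP_pw (PE a) (IsP_PE a ha)) (zw (Fin 2) zE) (TV_PE a ha)

end Pool.Agent.Results.MP_c084cb_lc.TwoCopyErasure
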